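import Pool.Agent.K1H81.DC.Defs
import Pool.Agent.K1H81.HW.Defs

/-!
# The trace of Frobenius on `H²` of the varieties built from double planes: definitions
-/

set_option autoImplicit false

namespace Pool.Agent.K1H81.DP

open Finset
open Pool.Agent.Y722.HS (Mon)
open Pool.Agent.K1H81.DC (numPoints GoodReduction)

/-- The trace of Frobenius at `p` on the primitive part of `H²(X)`, for the double plane
`X : y² = ∑ c_μ x^μ`: it is `#X(𝔽_p) - 1 - p - p²`. -/
noncomputable def tracePrim {d : ℕ} (c : Mon 2 d → ℤ) (p : ℕ) : ℝ :=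
  numPoints c p 1 - (1 + p + (p : ℝ) ^ 2)

/-- The multiplicities in `H²(V)`, for `V` built from the double planes `X_1, …, X_r`: the space
`H²(V)` is the sum of `a i` copies of the primitive part of `H²(X_i)` and of `k` lines on which
Frobenius at `p` is `p`. -/
structure Shape (r : ℕ) where
  k : ℝ
  a : Fin r → ℝ

/-- The trace `b_p(V)` of Frobenius at `p` on `H²(V)`. -/
noncomputable def traceH2 {r : ℕ} {d : Fin r → ℕ} (V : Shape r)
    (c : (Σ i, Mon 2 (d i)) → ℤ) (p : ℕ) : ℝ :=
  V.k * p + ∑ i, V.a i * tracePrim (fun μ => c ⟨i, μ⟩) p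

/-- The sum of the absolute values of the multiplicities. -/
noncomputable def size {r : ℕ} (V : Shape r) : ℝ := |V.k| + ∑ i, |V.a i|

/-- All the double planes `X_i` have good reduction at the prime `p`. -/
def Good {r : ℕ} {d : Fin r → ℕ} (c : (Σ i, Mon 2 (d i)) → ℤ) (p : ℕ) : Prop :=
  p.Prime ∧ ∀ i, GoodReduction (fun μ => c ⟨i, μ⟩) p

open Classical in
/-- The sum of `w_p b_p(V) log(p) / p` over the primes `p < T` of good reduction. -/
noncomputable def tateSum {r : ℕ} {d : Fin r → ℕ} (V : Shape r)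
    (c : (Σ i, Mon 2 (d i)) → ℤ) (w : ℕ → ℝ) (T : ℕ) : ℝ :=
  ∑ p ∈ range T with Good c p, w p * (traceH2 V c p * Real.log p / p)

end Pool.Agent.K1H81.DP
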