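import Pool.Agent.K1H81.DP.Loc

/-!
# The law of large numbers for double planes, uniformly in the length of the sum
-/

set_option autoImplicit false
set_option linter.unusedSectionVars false

namespace Pool.Agent.K1H81.DP

open Finset hiding val
open Filter Topology
open Pool.Agent.Y722.HS Pool.Agent.X280.HG Pool.Agent.X280.BP Pool.Agent.X280.UC
open Pool.Agent.K1H81.HW (thetaSum markov lim_sqrt lim_theta)
open Pool.Agent.Y722.ST (Dat)

section
variable {r : ℕ} {d : Fin r → ℕ}

theorem size_nonneg (V : Shape r) : 0 ≤ size V := by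
  rw [size_eq]
  exact Finset.sum_nonneg fun i _ => abs_nonneg _

theorem k_le (V : Shape r) : |V.k| ≤ size V := by
  unfold size
  have h2 : 0 ≤ ∑ i, |V.a i| := Finset.sum_nonneg fun i _ => abs_nonneg _
  linarith

/-- **The uniform law of large numbers.** -/
theorem lln (he : ∀ i, Even (d i)) (hd : ∀ i, 3 ≤ d i) : ∃ C : ℝ, 0 < C ∧
    ∀ w : ℕ → ℝ, (∀ p, |w p| ≤ 1) → ∀ (H : ℕ) (A : ℝ), 0 < A →
      ({c : (Σ i, Mon 2 (d i)) → ℤ | (∀ μ, |c μ| ≤ H) ∧ ∃ (V : Shape r) (T : ℕ), 2 ≤ T ∧
        8 * T ^ 4 ≤ H ∧ A * size V * (√T * Real.log T ^ 3) <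
          |tateSum V c w T - V.k * thetaSum w T|}.ncard : ℝ) ≤
        C / A ^ 2 * (2 * H + 1 : ℝ) ^ Fintype.card (Σ i, Mon 2 (d i)) := by
  classical
  choose K hK using fun x : Option (Fin r) => dat (d := d) hd x
  obtain ⟨C, hC0, hC⟩ := Pool.Agent.Y722.ST.effective_weights (κ := Option (Fin r)) (K := K)
    (m := mm) (p0 := 0) (Y := fun x => YY d x) hK 1 0 (by simp)
  refine ⟨36 * C + 1, by positivity, fun w hw H A hA => ?_⟩
  obtain ⟨Φ, hΦ0, hΦ1, hΦ2⟩ := hC (fun _ => w) (fun _ => hw) H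
  have hA2 : 0 < A ^ 2 / 36 := by positivity
  refine (markov H Φ hΦ0 hΦ1 hA2 _ ?_).trans ?_
  · rintro c ⟨V, T, hT, hTH, hlt⟩
    have hT0 : (0 : ℝ) < T := by exact_mod_cast (by omega : 0 < T)
    have hlog : 0 < Real.log T := Real.log_pos (by exact_mod_cast (by omega : 1 < T))
    have hB0 : 0 < √(T : ℝ) * Real.log T ^ 3 := mul_pos (Real.sqrt_pos.2 hT0) (pow_pos hlog 3)
    have hx : ∀ x : Option (Fin r), |tateSum (shp x) c w T - mm x * thetaSum w T| ≤
        6 * √(Φ c) * (√(T : ℝ) * Real.log T ^ 3) := by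
      intro x
      set a : ℕ → ℝ := fun p => if p.Prime then
        (w p * (YY d x p (red p c) - mm x)) else 0 with ha
      have h1 : ∀ t : ℕ, 2 ≤ t → t ≤ T → (∑ i ∈ range t, a i) ^ 2 ≤ t * Real.log t ^ 4 * Φ c := by
        intro t ht htT
        have h8 : 8 * t ^ 4 ≤ H := by
          calc 8 * t ^ 4 ≤ 8 * T ^ 4 := by gcongr
            _ ≤ H := hTH
        have h9 := hΦ2 c (fun _ => True) (fun _ _ _ _ => trivial) x t ht h8
        have e : Pool.Agent.Y722.ST.DD (fun p c => w p * (YY d x p c - mm x)) 0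
            (fun _ => True) c t = ∑ i ∈ range t, a i := by
          unfold Pool.Agent.Y722.ST.DD
          exact Finset.sum_congr rfl fun p _ => by by_cases hp : p.Prime <;> simp [ha, hp]
        rwa [e] at h9
      have h2 := Pool.Agent.Y722.ST.abel_log a (by simp [ha, Nat.not_prime_zero])
        (by simp [ha, Nat.not_prime_one]) (Φ c) T hT h1
      have h3 : ∑ i ∈ range T, a i * Real.log i =
          tateSum (shp x) c w T - mm x * thetaSum w T := by
        unfold tateSum thetaSum
        rw [Finset.mul_sum, Finset.sum_filter, Finset.sum_filter, ← Finset.sum_sub_distrib]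
        refine Finset.sum_congr rfl fun p _ => ?_
        rw [ha]
        by_cases hp : p.Prime
        · simp only [hp, if_true]
          rw [YY_eq he x c p hp]
          split_ifs with hg
          · ring
          · ring
        · have hg : ¬ Good c p := fun h => hp h.1
          simp only [hp, if_false, if_neg hg]
          ring
      rw [h3] at h2
      refine abs_le_of_sq_le_sq (h2.trans (le_of_eq ?_)) (by positivity)
      rw [mul_pow, mul_pow, mul_pow, Real.sq_sqrt hT0.le, Real.sq_sqrt (hΦ0 c)]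
      ring
    have h4 : |tateSum V c w T - V.k * thetaSum w T| ≤
        size V * (6 * √(Φ c) * (√(T : ℝ) * Real.log T ^ 3)) := by
      rw [tateSum_lin, k_eq, size_eq, Finset.sum_mul, ← Finset.sum_sub_distrib, Finset.sum_mul]
      refine (Finset.abs_sum_le_sum_abs _ _).trans (Finset.sum_le_sum fun x _ => ?_)
      rw [mul_assoc, ← mul_sub, abs_mul]
      exact mul_le_mul_of_nonneg_left (hx x) (abs_nonneg _)
    have h5 := hlt.trans_le h4
    have hs0 := size_nonneg V
    have hs : 0 < size V := by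
      rcases hs0.lt_or_eq with h | h
      · exact h
      · rw [← h] at h5
        simp at h5
    have h6 : A * (size V * (√(T : ℝ) * Real.log T ^ 3)) <
        (6 * √(Φ c)) * (size V * (√(T : ℝ) * Real.log T ^ 3)) := by
      calc A * (size V * (√(T : ℝ) * Real.log T ^ 3)) =
          A * size V * (√(T : ℝ) * Real.log T ^ 3) := by ring
        _ < _ := h5
        _ = _ := by ring
    have h7 : A < 6 * √(Φ c) := lt_of_mul_lt_mul_right h6 (by positivity)
    have h8 : A ^ 2 < (6 * √(Φ c)) ^ 2 := pow_lt_pow_left₀ h7 hA.le two_ne_zero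
    rw [mul_pow, Real.sq_sqrt (hΦ0 c)] at h8
    linarith
  · have hN : (0 : ℝ) ≤ (2 * H + 1 : ℝ) ^ Fintype.card (Σ i, Mon 2 (d i)) := by positivity
    refine mul_le_mul_of_nonneg_right ?_ hN
    rw [div_div_eq_mul_div]
    exact div_le_div_of_nonneg_right (by linarith) (by positivity)

/-- **The averages of the question are near the rank for almost all varieties.** -/
theorem lln_limit (he : ∀ i, Even (d i)) (hd : ∀ i, 3 ≤ d i) (η : ℝ) (hη : 0 < η) :
    ∃ T₀ : ℕ, ∀ H : ℕ, ({c : (Σ i, Mon 2 (d i)) → ℤ | (∀ μ, |c μ| ≤ H) ∧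
      ∃ (V : Shape r) (T : ℕ), T₀ ≤ T ∧ 8 * T ^ 4 ≤ H ∧
        η * size V < |tateSum V c (fun _ => 1) T / T - V.k|}.ncard : ℝ) ≤
        η * (2 * H + 1 : ℝ) ^ Fintype.card (Σ i, Mon 2 (d i)) := by
  obtain ⟨C, hC0, hC⟩ := lln he hd
  set A : ℝ := √(C / η) with hA
  have hCη : 0 < C / η := div_pos hC0 hη
  have hA0 : 0 < A := Real.sqrt_pos.2 hCη
  have hA2 : C / A ^ 2 = η := by
    rw [hA, Real.sq_sqrt hCη.le]
    field_simp
  have h1 := lim_sqrt A
  have h2 : Tendsto (fun T : ℕ => thetaSum (fun _ => 1) T / T - 1) atTop (𝓝 0) := by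
    have := lim_theta.sub_const 1
    rwa [sub_self] at this
  have h3 := h1.eventually (gt_mem_nhds (by positivity : 0 < η / 2))
  have h4 := h2.eventually (Metric.ball_mem_nhds 0 (by positivity : 0 < η / 2))
  obtain ⟨T₀, hT₀⟩ := Filter.eventually_atTop.1 (h3.and h4)
  refine ⟨max T₀ 2, fun H => ?_⟩
  have h5 := hC (fun _ => 1) (fun _ => by simp) H A hA0
  rw [hA2] at h5
  refine le_trans ?_ h5
  refine Nat.cast_le.2 (Set.ncard_le_ncard ?_ ?_)
  · rintro c ⟨hc, V, T, hT, hTH, hlt⟩
    have hT2 : 2 ≤ T := (le_max_right _ _).trans hT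
    have hT0 : (0 : ℝ) < T := by exact_mod_cast (by omega : 0 < T)
    refine ⟨hc, V, T, hT2, hTH, ?_⟩
    obtain ⟨h6, h7⟩ := hT₀ T ((le_max_left _ _).trans hT)
    rw [dist_zero_right, Real.norm_eq_abs] at h7
    by_contra hcon
    push Not at hcon
    have hs0 := size_nonneg V
    have h8 : |(tateSum V c (fun _ => 1) T - V.k * thetaSum (fun _ => 1) T) / T| ≤
        size V * (η / 2) := by
      rw [abs_div, abs_of_pos hT0]
      calc |tateSum V c (fun _ => 1) T - V.k * thetaSum (fun _ => 1) T| / T ≤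
          A * size V * (√(T : ℝ) * Real.log T ^ 3) / T := div_le_div_of_nonneg_right hcon hT0.le
        _ = size V * (A * (√(T : ℝ) * Real.log T ^ 3) / T) := by ring
        _ ≤ _ := mul_le_mul_of_nonneg_left h6.le hs0
    have h11 : |V.k * (thetaSum (fun _ => 1) T / T - 1)| ≤ size V * (η / 2) := by
      rw [abs_mul]
      exact mul_le_mul (k_le V) h7.le (abs_nonneg _) hs0
    have h9 : tateSum V c (fun _ => 1) T / T - V.k =
        (tateSum V c (fun _ => 1) T - V.k * thetaSum (fun _ => 1) T) / T +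
          V.k * (thetaSum (fun _ => 1) T / T - 1) := by
      field_simp
      ring
    rw [h9] at hlt
    have h10 := abs_add_le ((tateSum V c (fun _ => 1) T - V.k * thetaSum (fun _ => 1) T) / T)
      (V.k * (thetaSum (fun _ => 1) T / T - 1))
    linarith
  · refine Set.Finite.subset (Set.Finite.pi' fun _ => Set.finite_Icc (-(H : ℤ)) H) ?_
    rintro c ⟨hc, -⟩ μ
    exact abs_le.1 (hc μ)

end

end Pool.Agent.K1H81.DP
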