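import Pool.Agent.K1H81.DE.Main
import Pool.Agent.K1H81.HW.Fin2
import Pool.Agent.K1H81.DP.Defs

/-!
# Local data for double planes
-/

set_option autoImplicit false
set_option linter.unusedSectionVars false

namespace Pool.Agent.K1H81.DP

open Finset hiding val
open MeasureTheory ProbabilityTheory Filter Topology
open Pool.Agent.Y722.HS Pool.Agent.X280.HG Pool.Agent.X280.BP Pool.Agent.X280.UC
open Pool.Agent.K1H81.HV (limitLaw mean mean_limit EM_bad WD)
open Pool.Agent.K1H81.DC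
open Pool.Agent.K1H81.DE (Good2 good2_iff bad2)
open Pool.Agent.Y722.ST (Dat)

theorem mean_X : mean (MvPolynomial.X 0 : MvPolynomial (Fin 1) ℝ) = 0 := by
  rw [← mean_limit]
  simp only [MvPolynomial.eval_X]
  unfold limitLaw
  have h := measurePreserving_eval (fun k : Fin 1 =>
    gaussianReal (if Even ((k : ℕ) + 1) then 1 else 0) (((k : ℕ) + 1 : ℕ) : NNReal)) 0
  have h2 := integral_map (μ := Measure.pi fun k : Fin 1 =>
    gaussianReal (if Even ((k : ℕ) + 1) then 1 else 0) (((k : ℕ) + 1 : ℕ) : NNReal))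
    (φ := Function.eval (0 : Fin 1)) h.measurable.aemeasurable (f := fun x : ℝ => x)
    (by fun_prop)
  rw [h.map_eq] at h2
  have h3 : ∫ x, x ∂(gaussianReal (if Even (((0 : Fin 1) : ℕ) + 1) then 1 else 0)
      ((((0 : Fin 1) : ℕ) + 1 : ℕ) : NNReal)) = 0 := by
    rw [integral_id_gaussianReal]
    simp
  exact h2.symm.trans h3

theorem wd_X : WD 1 (MvPolynomial.X 0 : MvPolynomial (Fin 1) ℝ) := by
  intro α hα
  rw [MvPolynomial.support_X, Finset.mem_singleton] at hα
  subst hα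
  simp

/-- The local function of one double plane. -/
noncomputable def T (d p : ℕ) (c : Mon 2 d → ZMod p) : ℝ :=
  UU (MvPolynomial.X 0 : MvPolynomial (Fin 1) ℝ) 1 d p c

theorem ldT (d : ℕ) (hd : 3 ≤ d) : ∃ C : ℝ, 1 ≤ C ∧ ∀ (p : ℕ) [Fact p.Prime],
    |EM p (T d p)| ≤ C / p ∧ EM p (fun c => T d p c ^ 2) ≤ C := by
  have hLD : S_LD := t_LD DE.mv (t_NEAR DE.qp Pool.Agent.K1H99.DC.t_ZC) Pool.Agent.K1H3.DC.t_PERT
  obtain ⟨C, hC⟩ := hLD 1 1 (MvPolynomial.X 0) wd_X 1 d le_rfl (by omega)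
  have hC0 := hC.C0
  refine ⟨C + |mean ((MvPolynomial.X 0 : MvPolynomial (Fin 1) ℝ) ^ 2)| + 1, by
    have := abs_nonneg (mean ((MvPolynomial.X 0 : MvPolynomial (Fin 1) ℝ) ^ 2)); linarith,
    fun p hp => ⟨?_, ?_⟩⟩
  · have h1 := hC.m1 p hp.out
    rw [mean_X, sub_zero] at h1
    have hp0 : (0 : ℝ) < p := by exact_mod_cast hp.out.pos
    refine le_trans h1 ?_
    have := abs_nonneg (mean ((MvPolynomial.X 0 : MvPolynomial (Fin 1) ℝ) ^ 2))
    gcongr
    linarith
  · have h1 := (abs_le.mp (hC.m2 p hp.out)).2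
    have hp1 : (1 : ℝ) ≤ p := by exact_mod_cast hp.out.one_lt.le
    have h2 : C / p ≤ C := div_le_self hC0 hp1
    have h3 := le_abs_self (mean ((MvPolynomial.X 0 : MvPolynomial (Fin 1) ℝ) ^ 2))
    have h4 : EM p (fun c => T d p c ^ 2) =
      EM p (fun c => UU (MvPolynomial.X 0 : MvPolynomial (Fin 1) ℝ) 1 d p c ^ 2) := rfl
    rw [h4]
    linarith

section
variable {r : ℕ} {d : Fin r → ℕ}

open Classical in
/-- The indicator of the bad reduction of one of the double planes. -/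
noncomputable def badI (d : Fin r → ℕ) (p : ℕ) (c : (Σ i, Mon 2 (d i)) → ZMod p) : ℝ :=
  if ∀ i, Good2 p (fun μ => c ⟨i, μ⟩) then 0 else 1

theorem badI_cases (p : ℕ) (c : (Σ i, Mon 2 (d i)) → ZMod p) : badI d p c = 0 ∨ badI d p c = 1 := by
  unfold badI
  split_ifs
  · exact Or.inl rfl
  · exact Or.inr rfl

theorem EM_badI (hd : ∀ i, 1 ≤ d i) : ∃ C : ℝ, 0 ≤ C ∧ ∀ (p : ℕ) [Fact p.Prime],
    EM p (badI d p) ≤ C / p := by
  classical
  refine ⟨∑ i, ((Delta 2 (d i)).totalDegree + d i : ℝ) + 2, by positivity, fun p hp => ?_⟩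
  have hp0 : (0 : ℝ) < p := by exact_mod_cast hp.out.pos
  have hS : 0 ≤ ∑ i, ((Delta 2 (d i)).totalDegree + d i : ℝ) := by positivity
  by_cases hp2 : p = 2
  · subst hp2
    have h1 : EM 2 (badI d 2) ≤ EM 2 (fun _ : (Σ i, Mon 2 (d i)) → ZMod 2 => (1 : ℝ)) := by
      refine EM_monoV 2 _ _ fun c => ?_
      rcases badI_cases 2 c with h | h <;> rw [h]
      norm_num
    rw [EM_const'] at h1
    refine h1.trans ?_
    rw [le_div_iff₀ hp0]
    push_cast
    linarith
  have h1 : EM p (badI d p) ≤ EM p (fun c : (Σ i, Mon 2 (d i)) → ZMod p =>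
      ∑ i, (if IsBad p (fun μ => c ⟨i, μ⟩) then (1 : ℝ) else 0)) := by
    refine EM_monoV p _ _ fun c => ?_
    have h0 : 0 ≤ ∑ i, (if IsBad p (fun μ => c ⟨i, μ⟩) then (1 : ℝ) else 0) :=
      Finset.sum_nonneg fun i _ => by split_ifs <;> norm_num
    unfold badI
    split_ifs with h
    · exact h0
    · push Not at h
      obtain ⟨i, hi⟩ := h
      have h2 : (1 : ℝ) = (fun i : Fin r =>
          if IsBad p (fun μ => c ⟨i, μ⟩) then (1 : ℝ) else 0) i := by
        have h3 := bad2 hp2 (hd i) _ hi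
        simp only [if_pos h3]
      refine h2.le.trans ?_
      exact Finset.single_le_sum (f := fun i : Fin r =>
        if IsBad p (fun μ => c ⟨i, μ⟩) then (1 : ℝ) else 0)
        (fun i _ => by split_ifs <;> norm_num) (Finset.mem_univ i)
  refine h1.trans ?_
  rw [EM_sum', add_div, Finset.sum_div]
  have h3 : ∑ i, EM p (fun c : (Σ i, Mon 2 (d i)) → ZMod p =>
      (if IsBad p (fun μ => c ⟨i, μ⟩) then (1 : ℝ) else 0)) ≤
      ∑ i, ((Delta 2 (d i)).totalDegree + d i : ℝ) / p := by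
    refine Finset.sum_le_sum fun i _ => ?_
    have h2 := HW.EM_comp (κ := fun i => Mon 2 (d i)) p i
      (fun c => if IsBad p c then (1 : ℝ) else 0)
    rw [h2]
    exact EM_bad 2 (d i) (hd i) p
  have h4 : (0 : ℝ) ≤ 2 / p := by positivity
  linarith

theorem datB (B : ∀ p : ℕ, ((Σ i, Mon 2 (d i)) → ZMod p) → ℝ) (m C D : ℝ) (hC1 : 1 ≤ C) (hD0 : 0 ≤ D)
    (hD : ∀ (p : ℕ) [Fact p.Prime], EM p (badI d p) ≤ D / p)
    (hB : ∀ (p : ℕ) [Fact p.Prime], |EM p (B p) - m| ≤ C / √p ∧ EM p (fun c => B p c ^ 2) ≤ C) :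
    Dat (C + (C + D)) 0 (fun p c => (1 - badI d p c) * B p c) m := by
  have hC0 : 0 ≤ C := by linarith
  refine ⟨by linarith, fun p hp _ => ?_, fun p hp _ => ?_⟩
  · obtain ⟨h1, h2⟩ := hB p
    have h3 : EM p (fun c => ((1 - badI d p c) * B p c) ^ 2) ≤ EM p (fun c => B p c ^ 2) := by
      refine EM_monoV p _ _ fun c => ?_
      beta_reduce
      obtain ⟨x, hx⟩ : ∃ x, B p c = x := ⟨_, rfl⟩
      rw [hx]
      rcases badI_cases p c with h | h
      · rw [h, sub_zero, one_mul]
      · rw [h, sub_self, zero_mul]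
        nlinarith [sq_nonneg x]
    linarith
  · obtain ⟨h1, h2⟩ := hB p
    have hp0 : (0 : ℝ) < p := by exact_mod_cast hp.out.pos
    have hp1 : (1 : ℝ) ≤ p := by exact_mod_cast hp.out.one_lt.le
    have hs1 : 1 ≤ √(p : ℝ) := Real.one_le_sqrt.2 hp1
    have hs0 : 0 < √(p : ℝ) := by linarith
    have hss : √(p : ℝ) * √(p : ℝ) = p := Real.mul_self_sqrt hp0.le
    have e1 : (fun c => (1 - badI d p c) * B p c) = fun c =>
        B p c + (-1) * (badI d p c * B p c) := by
      funext c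
      ring
    have h4 : |EM p (fun c => badI d p c * B p c)| ≤
        EM p (fun c => 1 / √p * (B p c ^ 2) + √p * badI d p c) := by
      refine abs_EM_le_EM p _ _ fun c => ?_
      obtain ⟨x, hx⟩ : ∃ x, B p c = x := ⟨_, rfl⟩
      rw [hx]
      rcases badI_cases p c with h | h
      · rw [h, zero_mul, abs_zero, mul_zero, add_zero]
        positivity
      · rw [h, one_mul, mul_one]
        obtain ⟨a, ha⟩ : ∃ a, √(p : ℝ) = a := ⟨_, rfl⟩
        rw [ha] at hs0 ⊢
        obtain ⟨z, hz⟩ : ∃ z, |x| = z := ⟨_, rfl⟩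
        have hz2 : x ^ 2 = z ^ 2 := by rw [← hz, sq_abs]
        rw [hz, hz2]
        have h6 : z * a ≤ z ^ 2 + a * a := by nlinarith [sq_nonneg (z - a), sq_nonneg z]
        have h7 : 1 / a * z ^ 2 + a = (z ^ 2 + a * a) / a := by field_simp
        rw [h7, le_div_iff₀ hs0]
        exact h6
    rw [EM_add', EM_mul', EM_mul'] at h4
    have h5 : √(p : ℝ) * EM p (badI d p) ≤ D / √p := by
      calc √(p : ℝ) * EM p (badI d p) ≤ √(p : ℝ) * (D / p) := by
            gcongr
            exact hD p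
        _ = D / √p := by
            rw [eq_div_iff hs0.ne', mul_comm (√(p : ℝ)) (D / p), mul_assoc, hss,
              div_mul_cancel₀ _ hp0.ne']
    have h6 : 1 / √(p : ℝ) * EM p (fun c => B p c ^ 2) ≤ C / √p := by
      rw [one_div_mul_eq_div]
      gcongr
    rw [e1, EM_add', EM_mul']
    have e2 : EM p (fun c => B p c) + (-1) * EM p (fun c => badI d p c * B p c) - m =
        (EM p (B p) - m) - EM p (fun c => badI d p c * B p c) := by
      ring
    rw [e2]
    refine (abs_sub _ _).trans ?_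
    have h7 : |EM p (fun c => badI d p c * B p c)| ≤ (C + D) / √p := by
      rw [add_div]
      have h8 : EM p (fun c => badI d p c) = EM p (badI d p) := rfl
      rw [h8] at h4
      linarith
    refine (add_le_add h1 h7).trans ?_
    rw [← add_div]

/-- The basic functions. -/
noncomputable def YY (d : Fin r → ℕ) (x : Option (Fin r)) (p : ℕ)
    (c : (Σ i, Mon 2 (d i)) → ZMod p) : ℝ :=
  match x with
  | none => (1 - badI d p c) * 1
  | some i => (1 - badI d p c) * T (d i) p (fun μ => c ⟨i, μ⟩)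

/-- The means. -/
noncomputable def mm (x : Option (Fin r)) : ℝ := match x with | none => 1 | some _ => 0

theorem dat (hd : ∀ i, 3 ≤ d i) (x : Option (Fin r)) : ∃ K : ℝ, Dat K 0 (YY d x) (mm x) := by
  obtain ⟨D, hD0, hD⟩ := EM_badI (d := d) fun i => (by have := hd i; omega)
  cases x with
  | none =>
    refine ⟨_, datB (fun _ _ => 1) 1 1 D le_rfl hD0 hD fun p hp => ⟨?_, ?_⟩⟩
    · rw [EM_const', sub_self, abs_zero]
      positivity
    · simp only [one_pow]
      rw [EM_const']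
  | some i =>
    obtain ⟨C, hC1, hC⟩ := ldT (d i) (hd i)
    refine ⟨_, datB (fun p c => T (d i) p (fun μ => c ⟨i, μ⟩)) 0 C D hC1 hD0 hD
      fun p hp => ⟨?_, ?_⟩⟩
    · have h1 := HW.EM_comp (κ := fun i => Mon 2 (d i)) p i (T (d i) p)
      rw [sub_zero, h1]
      refine (hC p).1.trans ?_
      have hp1 : (1 : ℝ) ≤ p := by exact_mod_cast hp.out.one_lt.le
      have hs1 : 1 ≤ √(p : ℝ) := Real.one_le_sqrt.2 hp1
      have hs : √(p : ℝ) ≤ p := by
        have := Real.mul_self_sqrt (by linarith : (0 : ℝ) ≤ p)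
        nlinarith
      gcongr
    · have h1 := HW.EM_comp (κ := fun i => Mon 2 (d i)) p i (fun c => T (d i) p c ^ 2)
      rw [h1]
      exact (hC p).2

/-- The basic varieties. -/
noncomputable def shp (x : Option (Fin r)) : Shape r :=
  match x with | none => ⟨1, 0⟩ | some i => ⟨0, fun j => if j = i then 1 else 0⟩

noncomputable def coef (V : Shape r) (x : Option (Fin r)) : ℝ :=
  match x with | none => V.k | some i => V.a i

theorem traceH2_lin (V : Shape r) (c : (Σ i, Mon 2 (d i)) → ℤ) (p : ℕ) :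
    traceH2 V c p = ∑ x, coef V x * traceH2 (shp x) c p := by
  rw [Fintype.sum_option]
  simp [traceH2, shp, coef]

theorem size_eq (V : Shape r) : size V = ∑ x, |coef V x| := by
  rw [Fintype.sum_option]
  rfl

theorem k_eq (V : Shape r) : V.k = ∑ x, coef V x * mm x := by
  rw [Fintype.sum_option]
  simp [coef, mm]

theorem tateSum_lin (V : Shape r) (c : (Σ i, Mon 2 (d i)) → ℤ) (w : ℕ → ℝ) (N : ℕ) :
    tateSum V c w N = ∑ x, coef V x * tateSum (shp x) c w N := by
  classical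
  unfold tateSum
  simp only [Finset.mul_sum]
  rw [Finset.sum_comm]
  refine Finset.sum_congr rfl fun p _ => ?_
  rw [traceH2_lin, Finset.sum_mul, Finset.sum_div, Finset.mul_sum]
  exact Finset.sum_congr rfl fun x _ => by ring

theorem trace_T (he : ∀ i, Even (d i)) (c : (Σ i, Mon 2 (d i)) → ℤ) (p : ℕ) [hp : Fact p.Prime]
    (h2 : p ≠ 2) (i : Fin r) :
    tracePrim (fun μ => c ⟨i, μ⟩) p / p = T (d i) p (fun μ => red p c ⟨i, μ⟩) := by
  have h1 := Pool.Agent.K1H50.DC.t 1 (d i) (he i) (fun μ => c ⟨i, μ⟩) p 1 h2 one_pos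
  have h3 : T (d i) p (fun μ => red p c ⟨i, μ⟩) =
      tq 1 (d i) p 1 (red p (fun μ => c ⟨i, μ⟩)) := by
    unfold T UU
    rw [dif_pos ⟨hp.out, h2⟩, MvPolynomial.eval_X]
    rfl
  rw [h3, ← h1]
  unfold DC.trace tracePrim
  simp only [Finset.sum_range_succ, Finset.range_zero, Finset.sum_empty, pow_zero, pow_one,
    mul_one, zero_add]

theorem YY_eq (he : ∀ i, Even (d i)) (x : Option (Fin r)) (c : (Σ i, Mon 2 (d i)) → ℤ) (p : ℕ)
    (hp : p.Prime) [Decidable (Good c p)] :
    YY d x p (red p c) = if Good c p then traceH2 (shp x) c p / p else 0 := by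
  have : Fact p.Prime := ⟨hp⟩
  have hp0 : (p : ℝ) ≠ 0 := by exact_mod_cast hp.ne_zero
  have h1 : Good c p ↔ ∀ i, Good2 p (fun μ => red p c ⟨i, μ⟩) := by
    unfold Good
    constructor
    · rintro ⟨-, h⟩ i
      exact (good2_iff _ p).1 (h i)
    · intro h
      exact ⟨hp, fun i => (good2_iff _ p).2 (h i)⟩
  by_cases h : Good c p
  · have hb : badI d p (red p c) = 0 := by
      unfold badI
      rw [if_pos (h1.1 h)]
    rw [if_pos h]
    cases x with
    | none =>
      simp [YY, hb, traceH2, shp, hp0]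
    | some i =>
      have h2 : p ≠ 2 := (h.2 i).1
      have h3 := trace_T he c p h2 i
      simp only [YY, hb, traceH2, shp, zero_mul, zero_add, sub_zero, one_mul, ite_mul]
      rw [Finset.sum_ite_eq' Finset.univ i]
      simp only [Finset.mem_univ, if_true]
      exact h3.symm
  · have hb : badI d p (red p c) = 1 := by
      unfold badI
      rw [if_neg fun h2 => h (h1.2 h2)]
    rw [if_neg h]
    cases x <;> simp [YY, hb]

end

end Pool.Agent.K1H81.DP
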